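import Pool.Agent.Y511.SurfDomD

/-!
# Surface areas of all affine images do not control the volume in dimension three

Two centrally symmetric convex bodies in three-dimensional space, the truncated octahedron
`|x| + |y| + |z| ≤ 1`, `|x|, |y|, |z| ≤ 5 / 6` and the octahedron `|x| + |y| + |z| ≤ 99 / 100`.
Every nonsingular affine image of the first has surface area at most that of the same affine
image of the second, but the first has the larger volume.
-/

namespace Pool.Agent.Results.MP_8228af_gt.AffineSurfaceDomination

open MeasureTheory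

/-- A centrally symmetric convex body: compact, convex, with nonempty interior, and symmetric
about some point `c`. -/
def IsSymmetricConvexBody {n : ℕ} (K : Set (EuclideanSpace ℝ (Fin n))) : Prop :=
  Convex ℝ K ∧ IsCompact K ∧ (interior K).Nonempty ∧
    ∃ c : EuclideanSpace ℝ (Fin n), ∀ x, x ∈ K ↔ (2 : ℝ) • c - x ∈ K

/-- Surface area: the Hausdorff measure of dimension `n - 1` of the boundary, normalised so as to
agree with Lebesgue measure on Euclidean spaces of dimension `n - 1`. -/
noncomputable def surfaceArea {n : ℕ} (K : Set (EuclideanSpace ℝ (Fin n))) : ENNReal :=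
  Measure.euclideanHausdorffMeasure (n - 1) (frontier K)

/-- `C₂` dominates `C₁` in affine surface area: for each nonsingular affine map the image of `C₁`
has surface area at most that of the image of `C₂`. -/
def Dominates {n : ℕ} (C₂ C₁ : Set (EuclideanSpace ℝ (Fin n))) : Prop :=
  ∀ A : EuclideanSpace ℝ (Fin n) ≃ᵃ[ℝ] EuclideanSpace ℝ (Fin n),
    surfaceArea (A '' C₁) ≤ surfaceArea (A '' C₂)

/-- The octahedron `|x| + |y| + |z| ≤ 99 / 100`. -/
def octahedron : Set (EuclideanSpace ℝ (Fin 3)) := {x | |x 0| + |x 1| + |x 2| ≤ 99 / 100}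

/-- The truncated octahedron `|x| + |y| + |z| ≤ 1`, `|x|, |y|, |z| ≤ 5 / 6`. -/
def truncatedOctahedron : Set (EuclideanSpace ℝ (Fin 3)) :=
  {x | |x 0| + |x 1| + |x 2| ≤ 1 ∧ |x 0| ≤ 5 / 6 ∧ |x 1| ≤ 5 / 6 ∧ |x 2| ≤ 5 / 6}

/-- The octahedron and the truncated octahedron are centrally symmetric convex bodies, the
octahedron dominates the truncated octahedron in affine surface area, and the truncated
octahedron has the larger volume. -/
theorem result : IsSymmetricConvexBody truncatedOctahedron ∧ IsSymmetricConvexBody octahedron ∧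
    Dominates octahedron truncatedOctahedron ∧ volume octahedron < volume truncatedOctahedron := by
  refine ⟨⟨Pool.Agent.Y511.SurfDom.convex_Tr, Pool.Agent.Y511.SurfDom.compact_Tr,
    Pool.Agent.Y511.SurfDom.int_Tr, 0, fun x => ?_⟩,
    ⟨Pool.Agent.Y511.SurfDom.convex_Oct _, Pool.Agent.Y511.SurfDom.compact_Oct _,
    Pool.Agent.Y511.SurfDom.int_Oct (by norm_num), 0, fun x => ?_⟩,
    Pool.Agent.Y511.SurfDom.domination, Pool.Agent.Y511.SurfDom.vol_lt⟩
  · simp [truncatedOctahedron]
  · simp [octahedron]

end Pool.Agent.Results.MP_8228af_gt.AffineSurfaceDomination
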